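import Mathlib

open Set Filter Topology

namespace Pool.Agent.Results.MP_26a47b_lc.GameCardinalExact

/-- The families of open sets with dense union. -/
def FamD (X : Type) [TopologicalSpace X] : Set (Set (Set X)) :=
  {𝒰 | (∀ U ∈ 𝒰, IsOpen U) ∧ Dense (⋃₀ 𝒰)}

/-- The members of `FamD X` whose closures cover the space. -/
def FamK (X : Type) [TopologicalSpace X] : Set (Set (Set X)) :=
  {𝒰 | 𝒰 ∈ FamD X ∧ (⋃ U ∈ 𝒰, closure U) = univ}

/-- Player ONE has a winning strategy in the game `G₁(K, D)` on `X`. A strategy answers each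
finite list of previous moves of TWO by a member of `FamK X`; it wins if for every sequence of
moves of TWO chosen from the answers the chosen sets do not form a member of `FamD X`. -/
def OneWins (X : Type) [TopologicalSpace X] : Prop :=
  ∃ σ : List (Set X) → Set (Set X), (∀ h, σ h ∈ FamK X) ∧
    ∀ U : ℕ → Set X, (∀ n, U n ∈ σ ((List.range n).map U)) → Set.range U ∉ FamD X

/-- A family of pairwise disjoint nonempty open sets. -/
def IsCellular (X : Type) [TopologicalSpace X] (𝒞 : Set (Set X)) : Prop :=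
  (∀ C ∈ 𝒞, IsOpen C ∧ C.Nonempty) ∧ ∀ C ∈ 𝒞, ∀ D ∈ 𝒞, C ≠ D → Disjoint C D

/-- The cellularity: the supremum of the cardinalities of cellular families. -/
noncomputable def cellularity (X : Type) [TopologicalSpace X] : Cardinal.{0} :=
  sSup {c | ∃ 𝒞 : Set (Set X), IsCellular X 𝒞 ∧ Cardinal.mk 𝒞 = c}

/-- The game cardinal `j`. -/
noncomputable def gameJ : Cardinal.{0} :=
  sInf {κ | ∀ (X : Type) [TopologicalSpace X] [T35Space X], κ ≤ cellularity X → OneWins X}

/-- Strong measure zero sets of reals. -/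
def IsSMZ (Y : Set ℝ) : Prop :=
  ∀ ε : ℕ → ℝ, (∀ n, 0 < ε n) →
    ∃ a b : ℕ → ℝ, (∀ n, a n ≤ b n ∧ b n - a n ≤ ε n) ∧ Y ⊆ ⋃ n, Icc (a n) (b n)

/-- The least cardinality of a set of reals that does not have strong measure zero. -/
noncomputable def nonSMZ : Cardinal.{0} := sInf {c | ∃ Y : Set ℝ, Cardinal.mk Y = c ∧ ¬ IsSMZ Y}

lemma not_isSMZ_univ : ¬ IsSMZ (univ : Set ℝ) := by
  intro h
  obtain ⟨a, b, hab, hcov⟩ := h (fun n => (1 / 2 : ℝ) ^ n) (fun n => by positivity)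
  have h1 : (MeasureTheory.volume (univ : Set ℝ)) ≤ ∑' n, ENNReal.ofReal ((1 / 2 : ℝ) ^ n) := by
    calc MeasureTheory.volume (univ : Set ℝ)
        ≤ MeasureTheory.volume (⋃ n, Icc (a n) (b n)) := MeasureTheory.measure_mono hcov
      _ ≤ ∑' n, MeasureTheory.volume (Icc (a n) (b n)) := MeasureTheory.measure_iUnion_le _
      _ ≤ ∑' n, ENNReal.ofReal ((1 / 2 : ℝ) ^ n) := by
        refine ENNReal.tsum_le_tsum fun n => ?_
        rw [Real.volume_Icc]
        exact ENNReal.ofReal_le_ofReal (hab n).2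
  rw [Real.volume_univ, top_le_iff] at h1
  have h2 : Summable (fun n : ℕ => (1 / 2 : ℝ) ^ n) := summable_geometric_two
  rw [← ENNReal.ofReal_tsum_of_nonneg (fun n => by positivity) h2] at h1
  exact ENNReal.ofReal_ne_top h1

lemma nonSMZ_mem : ∃ Y : Set ℝ, Cardinal.mk Y = nonSMZ ∧ ¬ IsSMZ Y := by
  have : (sInf {c : Cardinal.{0} | ∃ Y : Set ℝ, Cardinal.mk Y = c ∧ ¬ IsSMZ Y}) ∈
      {c : Cardinal.{0} | ∃ Y : Set ℝ, Cardinal.mk Y = c ∧ ¬ IsSMZ Y} :=
    csInf_mem ⟨_, univ, rfl, not_isSMZ_univ⟩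
  exact this

lemma isSMZ_of_lt {Y : Set ℝ} (h : Cardinal.mk Y < nonSMZ) : IsSMZ Y := by
  by_contra hY
  exact absurd (csInf_le' (s := {c : Cardinal.{0} | ∃ Y : Set ℝ, Cardinal.mk Y = c ∧ ¬ IsSMZ Y})
    ⟨Y, rfl, hY⟩) (not_le.2 h)

lemma IsSMZ.mono {Y Z : Set ℝ} (h : IsSMZ Z) (hYZ : Y ⊆ Z) : IsSMZ Y := by
  intro ε hε
  obtain ⟨a, b, h1, h2⟩ := h ε hε
  exact ⟨a, b, h1, hYZ.trans h2⟩

lemma isSMZ_iUnion {Y : ℕ → Set ℝ} (h : ∀ m, IsSMZ (Y m)) : IsSMZ (⋃ m, Y m) := by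
  intro ε hε
  choose a b hab hcov using fun m => h m (fun k => ε (Nat.pair m k)) (fun k => hε _)
  refine ⟨fun n => a n.unpair.1 n.unpair.2, fun n => b n.unpair.1 n.unpair.2, fun n => ?_, ?_⟩
  · have := hab n.unpair.1 n.unpair.2
    rwa [Nat.pair_unpair] at this
  · intro y hy
    obtain ⟨m, hm⟩ := mem_iUnion.1 hy
    obtain ⟨k, hk⟩ := mem_iUnion.1 (hcov m hm)
    refine mem_iUnion.2 ⟨Nat.pair m k, ?_⟩
    simpa using hk

lemma aleph0_lt_nonSMZ : Cardinal.aleph0 < nonSMZ := by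
  obtain ⟨Y, hY, hns⟩ := nonSMZ_mem
  by_contra! hcon
  rw [← hY, Cardinal.le_aleph0_iff_set_countable] at hcon
  apply hns
  rcases Y.eq_empty_or_nonempty with rfl | hne
  · intro ε hε
    exact ⟨fun _ => 0, fun _ => 0, fun n => ⟨le_rfl, by simpa using (hε n).le⟩, empty_subset _⟩
  · obtain ⟨f, rfl⟩ := hcon.exists_eq_range hne
    intro ε hε
    refine ⟨f, f, fun n => ⟨le_rfl, by simpa using (hε n).le⟩, ?_⟩
    rintro _ ⟨n, rfl⟩
    exact mem_iUnion.2 ⟨n, by simp⟩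

/-- a continuous injection of the Baire space into the reals -/
lemma exists_inj : ∃ r : (ℕ → ℕ) → ℝ, Continuous r ∧ Function.Injective r := by
  let e : (ℕ → ℕ) → (ℕ → Bool) := fun y k => decide (y k.unpair.1 = k.unpair.2)
  have he : Continuous e := by
    refine continuous_pi fun k => ?_
    exact (continuous_of_discreteTopology (f := fun v : ℕ => decide (v = k.unpair.2))).comp
      (continuous_apply k.unpair.1)
  have hinj : Function.Injective e := by
    intro y y' h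
    funext n
    have := congrFun h (Nat.pair n (y n))
    simp only [e, Nat.unpair_pair, decide_true] at this
    exact (of_decide_eq_true this.symm).symm
  refine ⟨fun y => ((cantorSetHomeomorphNatToBool.symm (e y) : cantorSet) : ℝ), ?_, ?_⟩
  · exact continuous_subtype_val.comp (cantorSetHomeomorphNatToBool.symm.continuous.comp he)
  · intro y y' h
    exact hinj (cantorSetHomeomorphNatToBool.symm.injective (Subtype.ext h))

/-- fewer than `nonSMZ` points of a product of finite sets can be guessed. -/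
lemma guess_nat {S : Type} (hS : Cardinal.mk S < nonSMZ) (k : ℕ → ℕ) (φ : S → ℕ → ℕ)
    (hφ : ∀ s n, φ s n < k n) : ∃ g : ℕ → ℕ, (∀ n, (∃ s, φ s n = g n) ∨ g n = 0) ∧
      ∀ s, ∃ n, g n = φ s n := by
  classical
  obtain ⟨r, hr, hinj⟩ := exists_inj
  let P : Set (ℕ → ℕ) := Set.pi univ (fun n => Set.Iio (k n))
  have hP : IsCompact P := isCompact_univ_pi fun n => (Set.finite_Iio (k n)).isCompact
  have hε : ∀ n, ∃ ε > 0, ∀ y ∈ P, ∀ y' ∈ P, y n ≠ y' n → ε ≤ |r y - r y'| := by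
    intro n
    have hcl : IsClosed {p : (ℕ → ℕ) × (ℕ → ℕ) | p.1 n ≠ p.2 n} := by
      have : IsOpen {p : (ℕ → ℕ) × (ℕ → ℕ) | p.1 n = p.2 n} := by
        have hc : Continuous (fun p : (ℕ → ℕ) × (ℕ → ℕ) => (p.1 n, p.2 n)) := by fun_prop
        exact (isOpen_discrete {q : ℕ × ℕ | q.1 = q.2}).preimage hc
      exact this.isClosed_compl
    have hK : IsCompact ((P ×ˢ P) ∩ {p : (ℕ → ℕ) × (ℕ → ℕ) | p.1 n ≠ p.2 n}) :=
      (hP.prod hP).inter_right hcl
    rcases ((P ×ˢ P) ∩ {p : (ℕ → ℕ) × (ℕ → ℕ) | p.1 n ≠ p.2 n}).eq_empty_or_nonempty with h | h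
    · refine ⟨1, one_pos, fun y hy y' hy' hne => ?_⟩
      have : (y, y') ∈ ((P ×ˢ P) ∩ {p : (ℕ → ℕ) × (ℕ → ℕ) | p.1 n ≠ p.2 n}) := ⟨⟨hy, hy'⟩, hne⟩
      rw [h] at this
      exact absurd this (notMem_empty _)
    · have hcont : Continuous (fun p : (ℕ → ℕ) × (ℕ → ℕ) => |r p.1 - r p.2|) := by fun_prop
      obtain ⟨q, hq, hmin⟩ := hK.exists_isMinOn h hcont.continuousOn
      refine ⟨|r q.1 - r q.2|, ?_, fun y hy y' hy' hne => ?_⟩
      · rw [gt_iff_lt, abs_pos, sub_ne_zero]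
        intro heq
        exact hq.2 (congrFun (hinj heq) n)
      · exact hmin (show (y, y') ∈ _ from ⟨⟨hy, hy'⟩, hne⟩)
  choose ε hε0 hε using hε
  have hSMZ : IsSMZ (range fun s => r (φ s)) :=
    isSMZ_of_lt (lt_of_le_of_lt Cardinal.mk_range_le hS)
  obtain ⟨a, b, hab, hcov⟩ := hSMZ (fun n => ε n / 2) (fun n => half_pos (hε0 n))
  let g : ℕ → ℕ := fun n => if h : ∃ s, r (φ s) ∈ Icc (a n) (b n) then φ h.choose n else 0
  refine ⟨g, fun n => ?_, fun s => ?_⟩
  · by_cases h : ∃ s, r (φ s) ∈ Icc (a n) (b n)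
    · left
      exact ⟨h.choose, by simp only [g, dif_pos h]⟩
    · right
      simp only [g, dif_neg h]
  · obtain ⟨n, hn⟩ := mem_iUnion.1 (hcov (mem_range_self s))
    refine ⟨n, ?_⟩
    have hex : ∃ s, r (φ s) ∈ Icc (a n) (b n) := ⟨s, hn⟩
    have h1 := hex.choose_spec
    simp only [g, dif_pos hex]
    by_contra hne
    have h2 := hε n (φ hex.choose) (fun m _ => hφ _ m) (φ s) (fun m _ => hφ _ m) hne
    have h3 : |r (φ hex.choose) - r (φ s)| ≤ ε n / 2 := by
      rw [abs_le]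
      have := (hab n).2
      have h4 := h1.1
      have h5 := h1.2
      have h6 := hn.1
      have h7 := hn.2
      constructor <;> linarith
    have := hε0 n
    linarith

lemma guess {S : Type} (hS : Cardinal.mk S < nonSMZ) (B : ℕ → Type) [∀ n, Finite (B n)]
    [∀ n, Nonempty (B n)] (φ : S → ∀ n, B n) : ∃ g : ∀ n, B n, ∀ s, ∃ n, g n = φ s n := by
  classical
  let e : ∀ n, B n ≃ Fin (Nat.card (B n)) := fun n => Finite.equivFin (B n)
  obtain ⟨g, -, hg⟩ := guess_nat hS (fun n => Nat.card (B n)) (fun s n => (e n (φ s n) : ℕ))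
    (fun s n => (e n (φ s n)).2)
  refine ⟨fun n => if h : g n < Nat.card (B n) then (e n).symm ⟨g n, h⟩ else Classical.arbitrary _,
    fun s => ?_⟩
  obtain ⟨n, hn⟩ := hg s
  refine ⟨n, ?_⟩
  have h : g n < Nat.card (B n) := by rw [hn]; exact (e n (φ s n)).2
  simp only [dif_pos h]
  rw [Equiv.symm_apply_eq]
  exact Fin.ext hn



section ultra
variable {α : Type}

lemma closure_subset_ultra {U : Set (Ultrafilter α)} (hU : IsOpen U) :
    closure U ⊆ {p : Ultrafilter α | {a | pure a ∈ U} ∈ p} := by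
  refine closure_minimal ?_ (ultrafilter_isClosed_basic _)
  intro p hp
  obtain ⟨V, ⟨s, rfl⟩, hpV, hVU⟩ := ultrafilterBasis_is_basis.exists_subset_of_mem_open hp hU
  have hps : s ∈ p := hpV
  refine p.mem_of_superset hps ?_
  intro a ha
  exact hVU (show s ∈ (pure a : Ultrafilter α) from ha)

lemma finite_subfamily {𝒰 : Set (Set (Ultrafilter α))} (h : 𝒰 ∈ FamK (Ultrafilter α)) :
    ∃ F : Finset (Set (Ultrafilter α)), (F : Set (Set (Ultrafilter α))) ⊆ 𝒰 ∧
      ∀ a : α, ∃ U ∈ F, pure a ∈ U := by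
  classical
  obtain ⟨⟨ho, -⟩, hcl⟩ := h
  have hcov : (univ : Set (Ultrafilter α)) ⊆
      ⋃ U : 𝒰, {p : Ultrafilter α | {a | pure a ∈ (U : Set (Ultrafilter α))} ∈ p} := by
    rw [← hcl]
    intro p hp
    obtain ⟨U, hU, hpU⟩ := mem_iUnion₂.1 hp
    exact mem_iUnion.2 ⟨⟨U, hU⟩, closure_subset_ultra (ho U hU) hpU⟩
  obtain ⟨t, ht⟩ := isCompact_univ.elim_finite_subcover _
    (fun U => ultrafilter_isOpen_basic _) hcov
  refine ⟨t.image Subtype.val, ?_, fun a => ?_⟩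
  · intro U hU
    rw [Finset.mem_coe, Finset.mem_image] at hU
    obtain ⟨V, -, rfl⟩ := hU
    exact V.2
  · obtain ⟨U, hU, hp⟩ := mem_iUnion₂.1 (ht (mem_univ (pure a : Ultrafilter α)))
    exact ⟨U, Finset.mem_image_of_mem _ hU, hp⟩

theorem not_oneWins_ultrafilter [Nonempty α] (hα : Cardinal.mk α < nonSMZ) :
    ¬ OneWins (Ultrafilter α) := by
  classical
  rintro ⟨σ, hσ, hplay⟩
  choose F hF1 hF2 using fun h => finite_subfamily (hσ h)
  have hFne : ∀ h, (F h).Nonempty := fun h => by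
    obtain ⟨U, hU, -⟩ := hF2 h (Classical.arbitrary α)
    exact ⟨U, hU⟩
  let H : ℕ → Finset (List (Set (Ultrafilter α))) := fun n =>
    Nat.rec (motive := fun _ => Finset (List (Set (Ultrafilter α)))) {[]}
      (fun _ A => A.biUnion fun h => (F h).image fun U => h ++ [U]) n
  have hH0 : H 0 = {[]} := rfl
  have hHs : ∀ n, H (n + 1) = (H n).biUnion fun h => (F h).image fun U => h ++ [U] := fun n => rfl
  let B : ℕ → Type := fun n => (h : {h // h ∈ H n}) → {U // U ∈ F h.1}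
  have hBne : ∀ n, Nonempty (B n) := fun n => ⟨fun h => ⟨(hFne h.1).choose, (hFne h.1).choose_spec⟩⟩
  have hBfin : ∀ n, Finite (B n) := fun n => by
    show Finite ((h : {h // h ∈ H n}) → {U // U ∈ F h.1})
    infer_instance
  let φ : α → ∀ n, B n := fun a n h => ⟨(hF2 h.1 a).choose, (hF2 h.1 a).choose_spec.1⟩
  have hφ : ∀ a n (h : {h // h ∈ H n}), (pure a : Ultrafilter α) ∈ (φ a n h).1 :=
    fun a n h => (hF2 h.1 a).choose_spec.2
  obtain ⟨g, hg⟩ := guess hα B φ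
  let G : ℕ → List (Set (Ultrafilter α)) → Set (Ultrafilter α) := fun n h =>
    @dite (Set (Ultrafilter α)) (h ∈ H n) (Classical.propDecidable _)
      (fun hh => (g n ⟨h, hh⟩).1) (fun _ => ∅)
  let hist : ℕ → List (Set (Ultrafilter α)) := fun n =>
    Nat.rec (motive := fun _ => List (Set (Ultrafilter α))) [] (fun k h => h ++ [G k h]) n
  have hist0 : hist 0 = [] := rfl
  have hists : ∀ n, hist (n + 1) = hist n ++ [G n (hist n)] := fun n => rfl
  have hmem : ∀ n, hist n ∈ H n := by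
    intro n
    induction n with
    | zero => rw [hH0, hist0]; exact Finset.mem_singleton_self _
    | succ n ih =>
      rw [hHs, hists, Finset.mem_biUnion]
      refine ⟨hist n, ih, Finset.mem_image.2 ⟨G n (hist n), ?_, rfl⟩⟩
      simp only [G, dif_pos ih]
      exact (g n ⟨hist n, ih⟩).2
  have hGF : ∀ n, G n (hist n) ∈ F (hist n) := by
    intro n
    simp only [G, dif_pos (hmem n)]
    exact (g n ⟨hist n, hmem n⟩).2
  have hmap : ∀ n, (List.range n).map (fun k => G k (hist k)) = hist n := by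
    intro n
    induction n with
    | zero => rfl
    | succ n ih => rw [List.range_succ, List.map_append, ih, hists]; rfl
  apply hplay (fun k => G k (hist k))
  · intro n
    rw [hmap n]
    exact hF1 _ (hGF n)
  · refine ⟨?_, ?_⟩
    · rintro _ ⟨n, rfl⟩
      exact (hσ (hist n)).1.1 _ (hF1 _ (hGF n))
    · refine denseRange_pure.mono ?_
      rintro _ ⟨a, rfl⟩
      obtain ⟨n, hn⟩ := hg a
      refine ⟨G n (hist n), ⟨n, rfl⟩, ?_⟩
      simp only [G, dif_pos (hmem n)]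
      rw [hn]
      exact hφ a n _

lemma isCellular_ultrafilter :
    IsCellular (Ultrafilter α) (range fun a : α => ({pure a} : Set (Ultrafilter α))) := by
  refine ⟨?_, ?_⟩
  · rintro _ ⟨a, rfl⟩
    refine ⟨?_, singleton_nonempty _⟩
    have h1 : ({pure a} : Set (Ultrafilter α)) = {p : Ultrafilter α | {a} ∈ p} := by
      ext p
      rw [mem_singleton_iff, mem_ofPred_eq]
      constructor
      · rintro rfl
        exact mem_singleton a
      · intro h
        apply Ultrafilter.ext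
        intro s
        constructor
        · intro hs
          have := Filter.inter_mem h hs
          obtain ⟨x, hx1, hx2⟩ := p.nonempty_of_mem this
          rw [mem_singleton_iff] at hx1
          subst hx1
          exact hx2
        · intro hs
          exact p.mem_of_superset h (singleton_subset_iff.2 hs)
    show IsOpen ({pure a} : Set (Ultrafilter α))
    rw [h1]
    exact ultrafilter_isOpen_basic _
  · rintro _ ⟨a, rfl⟩ _ ⟨b, rfl⟩ hne
    refine disjoint_singleton.2 ?_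
    intro h
    exact hne (by simp only [h])

lemma singleton_pure_injective :
    Function.Injective (fun a : α => ({pure a} : Set (Ultrafilter α))) := by
  intro a b h
  have : (pure a : Ultrafilter α) = pure b := singleton_injective h
  exact Ultrafilter.pure_injective this

lemma card_le_cellularity_ultrafilter : Cardinal.mk α ≤ cellularity (Ultrafilter α) := by
  rw [← Cardinal.mk_range_eq _ (singleton_pure_injective (α := α))]
  refine le_csSup ⟨Cardinal.mk (Set (Ultrafilter α)), ?_⟩ ⟨_, isCellular_ultrafilter, rfl⟩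
  rintro _ ⟨𝒞, -, rfl⟩
  exact Cardinal.mk_set_le 𝒞

end ultra

lemma exists_bounded_not_smz : ∃ (Y : Set ℝ) (m : ℤ), Cardinal.mk Y ≤ nonSMZ ∧ Y ⊆ Icc (m : ℝ) (m + 1) ∧
    ¬ IsSMZ Y := by
  obtain ⟨Y, hY, hns⟩ := nonSMZ_mem
  by_contra! hcon
  apply hns
  obtain ⟨e⟩ : Nonempty (ℕ ≃ ℤ) := ⟨(Denumerable.eqv ℤ).symm⟩
  have h1 : Y ⊆ ⋃ n : ℕ, (Y ∩ Icc ((e n : ℤ) : ℝ) ((e n : ℤ) + 1)) := by
    intro y hy
    refine mem_iUnion.2 ⟨e.symm ⌊y⌋, hy, ?_, ?_⟩
    · rw [e.apply_symm_apply]; exact Int.floor_le y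
    · rw [e.apply_symm_apply]; exact (Int.lt_floor_add_one y).le
  refine IsSMZ.mono (isSMZ_iUnion fun n => ?_) h1
  refine hcon _ (e n) ?_ inter_subset_right
  rw [← hY]
  exact Cardinal.mk_le_mk_of_subset inter_subset_left

/-- a set of size `nonSMZ` with codes that cannot be guessed. -/
lemma exists_codes : ∃ (Y : Set ℝ) (N : ℕ → ℕ) (c : ℕ → Y → ℕ), Cardinal.mk Y ≤ nonSMZ ∧ Y.Nonempty ∧
    (∀ n y, c n y ≤ N n) ∧ ∀ s : ℕ → ℕ, ∃ y : Y, ∀ n, c n y ≠ s n := by
  obtain ⟨Y, m, hY, hYm, hns⟩ := exists_bounded_not_smz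
  rw [IsSMZ] at hns
  push Not at hns
  obtain ⟨ε, hε, hns⟩ := hns
  refine ⟨Y, fun n => ⌊1 / ε n⌋₊, fun n y => ⌊((y : ℝ) - m) / ε n⌋₊, hY, ?_, fun n y => ?_, fun s => ?_⟩
  · by_contra hne
    rw [not_nonempty_iff_eq_empty] at hne
    refine hns (fun _ => 0) (fun _ => 0) (fun n => ⟨le_rfl, by simpa using (hε n).le⟩) ?_
    rw [hne]
    exact empty_subset _
  · apply Nat.floor_le_floor
    have h1 := (hYm y.2).2
    have := hε n
    gcongr
    linarith
  · by_contra! hcon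
    refine hns (fun n => m + s n * ε n) (fun n => m + (s n + 1) * ε n) (fun n => ?_) ?_
    · have := hε n
      constructor <;> nlinarith
    · intro y hy
      obtain ⟨n, hn⟩ := hcon ⟨y, hy⟩
      refine mem_iUnion.2 ⟨n, ?_⟩
      have h0 := hε n
      have h1 : 0 ≤ (y - m) / ε n := div_nonneg (by have := (hYm hy).1; linarith) h0.le
      have h2 := Nat.floor_le h1
      have h3 := Nat.lt_floor_add_one ((y - m) / ε n)
      simp only at hn
      rw [hn] at h2 h3
      rw [le_div_iff₀ h0] at h2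
      rw [div_lt_iff₀ h0] at h3
      constructor <;> linarith

theorem oneWins_of_cellular {X : Type} [TopologicalSpace X] {𝒞 : Set (Set X)}
    (h𝒞 : IsCellular X 𝒞) (hcard : nonSMZ ≤ Cardinal.mk 𝒞) : OneWins X := by
  classical
  obtain ⟨Y, N, c, hY, hYne, hcN, hc⟩ := exists_codes
  -- a maximal cellular family
  obtain ⟨𝒲, h𝒞𝒲, hmax⟩ : ∃ 𝒲, 𝒞 ⊆ 𝒲 ∧ Maximal (IsCellular X) 𝒲 := by
    refine zorn_subset_nonempty {𝒲 | IsCellular X 𝒲} ?_ 𝒞 h𝒞
    intro ch hch hchain hne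
    refine ⟨⋃₀ ch, ⟨?_, ?_⟩, fun s hs => subset_sUnion_of_mem hs⟩
    · rintro C ⟨s, hs, hC⟩
      exact (hch hs).1 C hC
    · rintro C ⟨s, hs, hC⟩ D ⟨t, ht, hD⟩ hCD
      rcases hchain.total hs ht with h | h
      · exact (hch ht).2 C (h hC) D hD hCD
      · exact (hch hs).2 C hC D (h hD) hCD
  have hcell := hmax.prop
  have hdense : Dense (⋃₀ 𝒲) := by
    rw [dense_iff_inter_open]
    intro V hV hVne
    by_contra hcon
    rw [not_nonempty_iff_eq_empty] at hcon
    have hdis : ∀ C ∈ 𝒲, Disjoint C V := by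
      intro C hC
      rw [disjoint_left]
      intro x hxC hxV
      have : x ∈ V ∩ ⋃₀ 𝒲 := ⟨hxV, C, hC, hxC⟩
      rw [hcon] at this
      exact this
    have hnew : IsCellular X (insert V 𝒲) := by
      refine ⟨?_, ?_⟩
      · rintro C (rfl | hC)
        · exact ⟨hV, hVne⟩
        · exact hcell.1 C hC
      · rintro C (rfl | hC) D (rfl | hD) hCD
        · exact absurd rfl hCD
        · exact (hdis D hD).symm
        · exact hdis C hC
        · exact hcell.2 C hC D hD hCD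
    have hV𝒲 : V ∈ 𝒲 := hmax.le_of_ge hnew (subset_insert _ _) (mem_insert _ _)
    have := hdis V hV𝒲
    rw [disjoint_self] at this
    exact hVne.ne_empty this
  have hYcard : Cardinal.mk Y ≤ Cardinal.mk 𝒲 :=
    hY.trans (hcard.trans (Cardinal.mk_le_mk_of_subset h𝒞𝒲))
  obtain ⟨e⟩ : Nonempty (Y ↪ 𝒲) := hYcard
  have : Nonempty Y := hYne.to_subtype
  let π : 𝒲 → Y := Function.invFun e
  have hπ : ∀ y, π (e y) = y := Function.leftInverse_invFun e.injective
  let V : ℕ → ℕ → Set X := fun n j => ⋃ C : {C : 𝒲 // c n (π C) = j}, (C.1 : Set X)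
  have hVo : ∀ n j, IsOpen (V n j) := fun n j => isOpen_iUnion fun C => (hcell.1 _ C.1.2).1
  have hVU : ∀ n, (⋃ j ∈ Finset.range (N n + 1), V n j) = ⋃₀ 𝒲 := by
    intro n
    ext x
    constructor
    · intro hx
      obtain ⟨j, -, hxj⟩ := mem_iUnion₂.1 hx
      obtain ⟨C, hC⟩ := mem_iUnion.1 hxj
      exact ⟨C.1, C.1.2, hC⟩
    · rintro ⟨C, hC, hxC⟩
      refine mem_iUnion₂.2 ⟨c n (π ⟨C, hC⟩), Finset.mem_range.2 (Nat.lt_succ_of_le (hcN _ _)), ?_⟩
      exact mem_iUnion.2 ⟨⟨⟨C, hC⟩, rfl⟩, hxC⟩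
  refine ⟨fun h => (V h.length) '' {j | j ≤ N h.length}, fun h => ⟨⟨?_, ?_⟩, ?_⟩, ?_⟩
  · rintro _ ⟨j, -, rfl⟩
    exact hVo _ _
  · refine hdense.mono ?_
    rw [← hVU h.length]
    intro x hx
    obtain ⟨j, hj, hxj⟩ := mem_iUnion₂.1 hx
    exact ⟨V h.length j, ⟨j, Nat.lt_succ_iff.1 (Finset.mem_range.1 hj), rfl⟩, hxj⟩
  · rw [eq_univ_iff_forall]
    intro x
    have hx : x ∈ closure (⋃ j ∈ Finset.range (N h.length + 1), V h.length j) := by
      rw [hVU, hdense.closure_eq]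
      trivial
    rw [Finset.closure_biUnion] at hx
    obtain ⟨j, hj, hxj⟩ := mem_iUnion₂.1 hx
    exact mem_iUnion₂.2 ⟨V h.length j, ⟨j, Nat.lt_succ_iff.1 (Finset.mem_range.1 hj), rfl⟩, hxj⟩
  · intro U hU hD
    have hs : ∀ n, ∃ j, V n j = U n := by
      intro n
      obtain ⟨j, -, hj⟩ := hU n
      rw [List.length_map, List.length_range] at hj
      exact ⟨j, hj⟩
    choose s hs using hs
    obtain ⟨y, hy⟩ := hc s
    have hC := hcell.1 _ (e y).2
    obtain ⟨x, hxC, hxU⟩ := hD.2.inter_open_nonempty _ hC.1 hC.2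
    obtain ⟨_, ⟨n, rfl⟩, hxn⟩ := hxU
    rw [← hs n] at hxn
    obtain ⟨D, hxD⟩ := mem_iUnion.1 hxn
    have hDe : D.1 = e y := by
      by_contra hne
      have hne' : (D.1 : Set X) ≠ (e y : Set X) := fun h => hne (Subtype.ext h)
      exact disjoint_left.1 (hcell.2 _ D.1.2 _ (e y).2 hne') hxD hxC
    have h1 := D.2
    rw [hDe, hπ] at h1
    exact hy n h1

lemma exists_cellular_of_lt {X : Type} [TopologicalSpace X] {κ : Cardinal.{0}}
    (h : κ < cellularity X) : ∃ 𝒞, IsCellular X 𝒞 ∧ κ < Cardinal.mk 𝒞 := by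
  obtain ⟨_, ⟨𝒞, h𝒞, rfl⟩, hlt⟩ := exists_lt_of_lt_csSup
    (s := {c | ∃ 𝒞 : Set (Set X), IsCellular X 𝒞 ∧ Cardinal.mk 𝒞 = c})
    ⟨0, ∅, ⟨by simp, by simp⟩, by simp⟩ h
  exact ⟨𝒞, h𝒞, hlt⟩

theorem nonSMZ_le_gameJ : nonSMZ ≤ gameJ := by
  have hne : {κ : Cardinal.{0} | ∀ (X : Type) [TopologicalSpace X] [T35Space X],
      κ ≤ cellularity X → OneWins X}.Nonempty := by
    refine ⟨Order.succ nonSMZ, fun X _ _ hX => ?_⟩
    obtain ⟨𝒞, h1, h2⟩ := exists_cellular_of_lt (lt_of_lt_of_le (Order.lt_succ _) hX)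
    exact oneWins_of_cellular h1 h2.le
  refine le_csInf hne ?_
  intro κ hκ
  by_contra! hlt
  have h1 : max κ Cardinal.aleph0 < nonSMZ := max_lt hlt aleph0_lt_nonSMZ
  obtain ⟨α, hα⟩ : ∃ α : Type, Cardinal.mk α = max κ Cardinal.aleph0 := Quotient.exists_rep _
  have : Nonempty α := by
    rw [← Cardinal.mk_ne_zero_iff, hα]
    exact (lt_of_lt_of_le Cardinal.aleph0_pos (le_max_right _ _)).ne'
  refine not_oneWins_ultrafilter (α := α) (by rw [hα]; exact h1) (hκ (Ultrafilter α) ?_)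
  exact le_trans (by rw [hα]; exact le_max_left _ _) card_le_cellularity_ultrafilter

theorem gameJ_le_succ : gameJ ≤ Order.succ nonSMZ := by
  refine csInf_le' (fun X _ _ hX => ?_)
  obtain ⟨𝒞, h1, h2⟩ := exists_cellular_of_lt (lt_of_lt_of_le (Order.lt_succ _) hX)
  exact oneWins_of_cellular h1 h2.le

section absolute
variable {Z : Type} [TopologicalSpace Z]

/-- The space of maximal filters of open sets. -/
def IsOU (h : TopologicalSpace.Opens Z → Bool) : Prop :=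
  h ⊥ = false ∧ (∀ U V, h (U ⊓ V) = (h U && h V)) ∧ ∀ U, (h U || h Uᶜ) = true

variable (Z) in
abbrev Abs : Type := {h : TopologicalSpace.Opens Z → Bool // IsOU h}

lemma isClosed_isOU : IsClosed {h : TopologicalSpace.Opens Z → Bool | IsOU h} := by
  have h1 : IsClosed {h : TopologicalSpace.Opens Z → Bool | h ⊥ = false} :=
    isClosed_eq (continuous_apply _) continuous_const
  have h2 : IsClosed {h : TopologicalSpace.Opens Z → Bool | ∀ U V, h (U ⊓ V) = (h U && h V)} := by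
    have : {h : TopologicalSpace.Opens Z → Bool | ∀ U V, h (U ⊓ V) = (h U && h V)} =
        ⋂ U, ⋂ V, {h : TopologicalSpace.Opens Z → Bool | h (U ⊓ V) = (h U && h V)} := by
      ext h; simp
    rw [this]
    refine isClosed_iInter fun U => isClosed_iInter fun V => isClosed_eq (continuous_apply _) ?_
    have hc : Continuous fun h : TopologicalSpace.Opens Z → Bool => (h U, h V) :=
      (continuous_apply U).prodMk (continuous_apply V)
    exact (continuous_of_discreteTopology (f := fun p : Bool × Bool => (p.1 && p.2))).comp hc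
  have h3 : IsClosed {h : TopologicalSpace.Opens Z → Bool | ∀ U, (h U || h Uᶜ) = true} := by
    have : {h : TopologicalSpace.Opens Z → Bool | ∀ U, (h U || h Uᶜ) = true} =
        ⋂ U, {h : TopologicalSpace.Opens Z → Bool | (h U || h Uᶜ) = true} := by
      ext h; simp
    rw [this]
    refine isClosed_iInter fun U => isClosed_eq ?_ continuous_const
    have hc : Continuous fun h : TopologicalSpace.Opens Z → Bool => (h U, h Uᶜ) :=
      (continuous_apply U).prodMk (continuous_apply Uᶜ)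
    exact (continuous_of_discreteTopology (f := fun p : Bool × Bool => (p.1 || p.2))).comp hc
  have : {h : TopologicalSpace.Opens Z → Bool | IsOU h} =
      {h : TopologicalSpace.Opens Z → Bool | h ⊥ = false} ∩
      ({h : TopologicalSpace.Opens Z → Bool | ∀ U V, h (U ⊓ V) = (h U && h V)} ∩
      {h : TopologicalSpace.Opens Z → Bool | ∀ U, (h U || h Uᶜ) = true}) := by
    ext h; rfl
  rw [this]
  exact h1.inter (h2.inter h3)

instance : CompactSpace (Abs Z) := isCompact_iff_compactSpace.1 isClosed_isOU.isCompact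

instance : T2Space (Abs Z) := inferInstance

/-- The basic clopen set of an open set. -/
def bas (U : TopologicalSpace.Opens Z) : Set (Abs Z) := {p | p.1 U = true}

lemma isClopen_bas (U : TopologicalSpace.Opens Z) : IsClopen (bas U) := by
  have : bas U = (fun p : Abs Z => p.1 U) ⁻¹' {true} := rfl
  rw [this]
  exact (isClopen_discrete _).preimage ((continuous_apply U).comp continuous_subtype_val)

lemma bas_inf (U V : TopologicalSpace.Opens Z) : bas (U ⊓ V) = bas U ∩ bas V := by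
  ext p
  simp only [bas, mem_inter_iff, mem_ofPred_eq]
  rw [p.2.2.1]
  simp

lemma bas_bot : bas (⊥ : TopologicalSpace.Opens Z) = ∅ := by
  ext p
  simp [bas, p.2.1]

lemma bas_compl (U : TopologicalSpace.Opens Z) : bas Uᶜ = (bas U)ᶜ := by
  ext p
  have h1 := p.2.2.2 U
  have h2 : p.1 (U ⊓ Uᶜ) = false := by rw [inf_compl_self]; exact p.2.1
  rw [p.2.2.1] at h2
  simp only [bas, mem_compl_iff, mem_ofPred_eq]
  cases h3 : p.1 U <;> cases h4 : p.1 Uᶜ <;> simp [h3, h4] at h1 h2 ⊢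

lemma bas_mono {U V : TopologicalSpace.Opens Z} (h : U ≤ V) : bas U ⊆ bas V := by
  have : bas U = bas U ∩ bas V := by rw [← bas_inf, inf_eq_left.2 h]
  rw [this]
  exact inter_subset_right

lemma bas_top : bas (⊤ : TopologicalSpace.Opens Z) = univ := by
  have := bas_compl (⊥ : TopologicalSpace.Opens Z)
  rw [bas_bot, compl_empty, compl_bot] at this
  exact this

/-- the filter generated by the dense open sets -/
def denseFilter (Z : Type) [TopologicalSpace Z] : Filter Z where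
  sets := {S | ∃ D, IsOpen D ∧ Dense D ∧ D ⊆ S}
  univ_sets := ⟨univ, isOpen_univ, dense_univ, subset_rfl⟩
  sets_of_superset := fun ⟨D, h1, h2, h3⟩ h => ⟨D, h1, h2, h3.trans h⟩
  inter_sets := fun ⟨D, h1, h2, h3⟩ ⟨E, h4, h5, h6⟩ =>
    ⟨D ∩ E, h1.inter h4, h2.inter_of_isOpen_left h5 h1, inter_subset_inter h3 h6⟩

lemma bas_nonempty {U : TopologicalSpace.Opens Z} (hU : (U : Set Z).Nonempty) : (bas U).Nonempty := by
  classical
  have hne : (denseFilter Z ⊓ 𝓟 (U : Set Z)).NeBot := by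
    rw [Filter.inf_principal_neBot_iff]
    rintro S ⟨D, h1, h2, h3⟩
    obtain ⟨x, hx1, hx2⟩ := h2.inter_open_nonempty _ U.2 hU
    exact ⟨x, h3 hx2, hx1⟩
  let 𝓊 := Ultrafilter.of (denseFilter Z ⊓ 𝓟 (U : Set Z))
  have h𝓊 : (𝓊 : Filter Z) ≤ denseFilter Z ⊓ 𝓟 (U : Set Z) := Ultrafilter.of_le _
  let h : TopologicalSpace.Opens Z → Bool := fun V => decide ((V : Set Z) ∈ 𝓊)
  refine ⟨⟨h, ?_, ?_, ?_⟩, ?_⟩
  · simp only [h, TopologicalSpace.Opens.coe_bot, decide_eq_false_iff_not]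
    exact 𝓊.empty_notMem
  · intro V W
    simp only [h, TopologicalSpace.Opens.coe_inf]
    rw [← Bool.decide_and]
    congr 1
    exact propext Filter.inter_mem_iff
  · intro V
    simp only [h, Bool.or_eq_true, decide_eq_true_eq]
    rw [← Ultrafilter.union_mem_iff]
    have : (V : Set Z) ∪ (Vᶜ : TopologicalSpace.Opens Z) ∈ denseFilter Z := by
      refine ⟨_, V.2.union (Vᶜ : TopologicalSpace.Opens Z).2, ?_, subset_rfl⟩
      rw [dense_iff_inter_open]
      intro W hW hWne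
      by_cases hVW : (W ∩ (V : Set Z)).Nonempty
      · obtain ⟨x, hx1, hx2⟩ := hVW
        exact ⟨x, hx1, Or.inl hx2⟩
      · have h1 : (⟨W, hW⟩ : TopologicalSpace.Opens Z) ≤ Vᶜ := by
          rw [le_compl_iff_disjoint_right, disjoint_iff]
          apply TopologicalSpace.Opens.ext
          rw [not_nonempty_iff_eq_empty] at hVW
          exact hVW
        obtain ⟨x, hx⟩ := hWne
        exact ⟨x, hx, Or.inr (h1 hx)⟩
    exact h𝓊 (Filter.mem_inf_of_left this)
  · show decide ((U : Set Z) ∈ 𝓊) = true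
    rw [decide_eq_true_eq]
    exact h𝓊 (Filter.mem_inf_of_right (mem_principal_self _))

lemma exists_bas {O : Set (Abs Z)} (hO : IsOpen O) {p : Abs Z} (hp : p ∈ O) :
    ∃ U : TopologicalSpace.Opens Z, p ∈ bas U ∧ bas U ⊆ O := by
  classical
  obtain ⟨V, hV, rfl⟩ := isOpen_induced_iff.1 hO
  obtain ⟨I, u, hu1, hu2⟩ := isOpen_pi_iff.1 hV p.1 hp
  -- the intersection over the finite set
  let W : TopologicalSpace.Opens Z → TopologicalSpace.Opens Z := fun U => if p.1 U = true then U else Uᶜ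
  have hW : ∀ U, p ∈ bas (W U) := by
    intro U
    by_cases h : p.1 U = true
    · simp only [W, h, if_true]; exact h
    · simp only [W, h]
      rw [if_neg (by simp), bas_compl]
      exact h
  have hW2 : ∀ U (q : Abs Z), q ∈ bas (W U) → q.1 U = p.1 U := by
    intro U q hq
    by_cases h : p.1 U = true
    · simp only [W, h, if_true] at hq; rw [h]; exact hq
    · simp only [W, h] at hq
      rw [if_neg (by simp), bas_compl] at hq
      rw [Bool.not_eq_true] at h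
      rw [h]
      rw [← Bool.not_eq_true]
      exact hq
  have key : ∀ J : Finset (TopologicalSpace.Opens Z), ∃ T : TopologicalSpace.Opens Z,
      p ∈ bas T ∧ ∀ U ∈ J, ∀ q ∈ bas T, q.1 U = p.1 U := by
    intro J
    induction J using Finset.induction_on with
    | empty => exact ⟨⊤, by rw [bas_top]; trivial, by simp⟩
    | insert U J hU ih =>
      obtain ⟨T, hT1, hT2⟩ := ih
      refine ⟨T ⊓ W U, by rw [bas_inf]; exact ⟨hT1, hW U⟩, ?_⟩
      intro U' hU' q hq
      rw [bas_inf] at hq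
      rcases Finset.mem_insert.1 hU' with rfl | h
      · exact hW2 _ q hq.2
      · exact hT2 U' h q hq.1
  obtain ⟨T, hT1, hT2⟩ := key I
  refine ⟨T, hT1, fun q hq => ?_⟩
  apply hu2
  intro U hU
  rw [hT2 U hU q hq]
  exact (hu1 U hU).2

/-- the open subset of `Z` associated with a subset of the absolute -/
def tr (O : Set (Abs Z)) : TopologicalSpace.Opens Z := sSup {U | bas U ⊆ O}

lemma subset_bas_tr {O : Set (Abs Z)} (hO : IsOpen O) : O ⊆ bas (tr O) := by
  intro p hp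
  obtain ⟨U, hU1, hU2⟩ := exists_bas hO hp
  exact bas_mono (le_sSup hU2) hU1

lemma closure_subset_bas_tr {O : Set (Abs Z)} (hO : IsOpen O) : closure O ⊆ bas (tr O) :=
  closure_minimal (subset_bas_tr hO) (isClopen_bas _).1

lemma meets_of_tr {O : Set (Abs Z)} {W : TopologicalSpace.Opens Z}
    (h : ((tr O : Set Z) ∩ W).Nonempty) : (O ∩ bas W).Nonempty := by
  obtain ⟨x, hx1, hx2⟩ := h
  simp only [tr, SetLike.mem_coe, TopologicalSpace.Opens.mem_sSup] at hx1
  obtain ⟨U, hU1, hU2⟩ := hx1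
  obtain ⟨p, hp⟩ := bas_nonempty (U := U ⊓ W) ⟨x, hU2, hx2⟩
  rw [bas_inf] at hp
  exact ⟨p, hU1 hp.1, hp.2⟩

end absolute



section cc
variable {K : Type} {D : K → Type}

/-- the basic set given by a finite set of coordinates and a point -/
def cyl (F : Finset K) (z : ∀ i, D i) : Set (∀ i, D i) := {x | ∀ i ∈ F, x i = z i}

lemma self_mem_cyl (F : Finset K) (z : ∀ i, D i) : z ∈ cyl F z := fun _ _ => rfl

lemma sigma_aux {S : Set K} {P : K → Prop} (z : ∀ i, D i) (a : K) (ha : a ∈ S) (hP : P a) (j : K) (hj : j ∈ S)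
    (v : D j) (h : (⟨⟨a, ha⟩, z a⟩ : Σ j : S, D j.1) = ⟨⟨j, hj⟩, v⟩) : P j ∧ z j = v := by
  cases h
  exact ⟨hP, rfl⟩

/-- two finite partial functions among `κ` many are compatible. -/
lemma cc_aux {κ : Cardinal.{0}} (hκ : κ.IsRegular) (hD : ∀ i, Cardinal.mk (D i) < κ) (n : ℕ) :
    ∀ (Ξ : Type) (F : Ξ → Finset K) (z : Ξ → ∀ i, D i), (∀ ξ, (F ξ).card = n) →
      κ ≤ Cardinal.mk Ξ → ∃ ξ η, ξ ≠ η ∧ ∀ i ∈ F ξ, i ∈ F η → z ξ i = z η i := by
  classical
  induction n with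
  | zero =>
    intro Ξ F z hF hΞ
    have : Infinite Ξ := Cardinal.infinite_iff.2 (hκ.aleph0_le.trans hΞ)
    obtain ⟨ξ, η, hne⟩ := exists_pair_ne Ξ
    refine ⟨ξ, η, hne, fun i hi _ => ?_⟩
    rw [Finset.card_eq_zero.1 (hF ξ)] at hi
    simp at hi
  | succ n ih =>
    intro Ξ F z hF hΞ
    by_contra! hcon
    have hinf : Infinite Ξ := Cardinal.infinite_iff.2 (hκ.aleph0_le.trans hΞ)
    obtain ⟨ξ₀⟩ : Nonempty Ξ := inferInstance
    let Ξ' : Set Ξ := {ξ₀}ᶜ
    have hΞ' : κ ≤ Cardinal.mk Ξ' := by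
      have : Cardinal.mk Ξ' = Cardinal.mk Ξ := by
        apply Cardinal.mk_compl_of_infinite
        simp only [Cardinal.mk_singleton]
        exact lt_of_lt_of_le Cardinal.one_lt_aleph0 (Cardinal.infinite_iff.1 hinf)
      rw [this]; exact hΞ
    have hex : ∀ ξ : Ξ', ∃ i ∈ F ξ₀, i ∈ F ξ.1 := by
      intro ξ
      obtain ⟨i, h1, h2, -⟩ := hcon ξ₀ ξ.1 (fun h => ξ.2 h.symm)
      exact ⟨i, h1, h2⟩
    choose i hi0 hi1 using hex
    let f : Ξ' → (Σ j : {j // j ∈ F ξ₀}, D j.1) := fun ξ => ⟨⟨i ξ, hi0 ξ⟩, z ξ.1 (i ξ)⟩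
    have hcard : Cardinal.mk (Σ j : {j // j ∈ F ξ₀}, D j.1) < κ.ord.cof := by
      rw [hκ.cof_ord, Cardinal.mk_sigma]
      refine Cardinal.sum_lt_of_isRegular hκ ?_ (fun j => hD j.1)
      exact lt_of_lt_of_le (Cardinal.mk_lt_aleph0) hκ.aleph0_le
    obtain ⟨⟨⟨j, hj⟩, v⟩, hv⟩ := Cardinal.infinite_pigeonhole_card f κ hΞ' hκ.aleph0_le hcard
    let Ψ : Type := f ⁻¹' {⟨⟨j, hj⟩, v⟩}
    have hΨ1 : ∀ ψ : Ψ, j ∈ F ψ.1.1 ∧ z ψ.1.1 j = v := by
      intro ψ
      have h1 : f ψ.1 = ⟨⟨j, hj⟩, v⟩ := ψ.2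
      exact sigma_aux (S := {j | j ∈ F ξ₀}) (P := fun k => k ∈ F ψ.1.1) (z ψ.1.1) (i ψ.1) (hi0 ψ.1) (hi1 ψ.1) j hj v h1
    obtain ⟨ξ, η, hne, hag⟩ := ih Ψ (fun ψ => (F ψ.1.1).erase j) (fun ψ => z ψ.1.1)
      (fun ψ => by rw [Finset.card_erase_of_mem (hΨ1 ψ).1, hF]; rfl) hv
    obtain ⟨l, hl1, hl2, hl3⟩ := hcon ξ.1.1 η.1.1 (fun h => hne (Subtype.ext (Subtype.ext h)))
    apply hl3
    by_cases hlj : l = j
    · subst hlj
      rw [(hΨ1 ξ).2, (hΨ1 η).2]
    · exact hag l (Finset.mem_erase.2 ⟨hlj, hl1⟩) (Finset.mem_erase.2 ⟨hlj, hl2⟩)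

/-- a family of pairwise disjoint basic sets has size less than `κ` -/
lemma cc {κ : Cardinal.{0}} (hκ : κ.IsRegular) (hκ0 : Cardinal.aleph0 < κ)
    (hD : ∀ i, Cardinal.mk (D i) < κ) (𝒜 : Set (Finset K × (∀ i, D i)))
    (h𝒜 : ∀ p ∈ 𝒜, ∀ q ∈ 𝒜, p ≠ q → Disjoint (cyl p.1 p.2) (cyl q.1 q.2)) :
    Cardinal.mk 𝒜 < κ := by
  classical
  by_contra! hcon
  have h1 : Cardinal.mk ℕ < κ.ord.cof := by rw [hκ.cof_ord, Cardinal.mk_nat]; exact hκ0
  obtain ⟨n, hn⟩ := Cardinal.infinite_pigeonhole_card (fun p : 𝒜 => p.1.1.card) κ hcon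
    hκ.aleph0_le h1
  obtain ⟨ξ, η, hne, hag⟩ := cc_aux hκ hD n
    ((fun p : 𝒜 => p.1.1.card) ⁻¹' {n} : Set 𝒜) (fun p => p.1.1.1) (fun p => p.1.1.2)
    (fun p => p.2) hn
  have hd := h𝒜 _ ξ.1.2 _ η.1.2 (fun h => hne (Subtype.ext (Subtype.ext h)))
  let x : ∀ i, D i := fun i => if i ∈ ξ.1.1.1 then ξ.1.1.2 i else η.1.1.2 i
  have hx1 : x ∈ cyl ξ.1.1.1 ξ.1.1.2 := by
    intro i hi
    simp only [x, if_pos hi]
  refine Set.disjoint_left.1 hd hx1 ?_
  · intro i hi
    by_cases h : i ∈ ξ.1.1.1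
    · simp only [x, if_pos h]
      exact hag i h hi
    · simp only [x, if_neg h]

variable [∀ i, TopologicalSpace (D i)] [∀ i, DiscreteTopology (D i)]

lemma isOpen_cyl (F : Finset K) (z : ∀ i, D i) : IsOpen (cyl F z) := by
  have : cyl F z = ⋂ i ∈ F, (fun x : ∀ i, D i => x i) ⁻¹' {z i} := by
    ext x; simp [cyl]
  rw [this]
  exact isOpen_biInter_finset fun i _ => (isOpen_discrete _).preimage (continuous_apply i)

omit [∀ i, DiscreteTopology (D i)] in
lemma exists_cyl {V : Set (∀ i, D i)} (hV : IsOpen V) {z : ∀ i, D i} (hz : z ∈ V) :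
    ∃ F : Finset K, cyl F z ⊆ V := by
  obtain ⟨I, u, hu1, hu2⟩ := isOpen_pi_iff.1 hV z hz
  refine ⟨I, fun x hx => hu2 fun i hi => ?_⟩
  rw [hx i hi]
  exact (hu1 i hi).2

/-- every open set contains a dense union of few basic sets. -/
lemma exists_small {κ : Cardinal.{0}} (hκ : κ.IsRegular) (hκ0 : Cardinal.aleph0 < κ)
    (hD : ∀ i, Cardinal.mk (D i) < κ) (V : Set (∀ i, D i)) (hV : IsOpen V) :
    ∃ 𝒜 : Set (Finset K × (∀ i, D i)), Cardinal.mk 𝒜 < κ ∧ (∀ p ∈ 𝒜, cyl p.1 p.2 ⊆ V) ∧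
      ∀ W : Set (∀ i, D i), IsOpen W → (W ∩ V).Nonempty → ∃ p ∈ 𝒜, (W ∩ cyl p.1 p.2).Nonempty := by
  classical
  let Good : Set (Finset K × (∀ i, D i)) → Prop := fun 𝒜 => (∀ p ∈ 𝒜, cyl p.1 p.2 ⊆ V) ∧
    ∀ p ∈ 𝒜, ∀ q ∈ 𝒜, p ≠ q → Disjoint (cyl p.1 p.2) (cyl q.1 q.2)
  obtain ⟨𝒜, -, hmax⟩ : ∃ 𝒜, (∅ : Set (Finset K × (∀ i, D i))) ⊆ 𝒜 ∧ Maximal Good 𝒜 := by
    refine zorn_subset_nonempty {𝒜 | Good 𝒜} ?_ ∅ ⟨by simp, by simp⟩
    intro ch hch hchain hne
    refine ⟨⋃₀ ch, ⟨?_, ?_⟩, fun s hs => subset_sUnion_of_mem hs⟩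
    · rintro p ⟨s, hs, hp⟩
      exact (hch hs).1 p hp
    · rintro p ⟨s, hs, hp⟩ q ⟨t, ht, hq⟩ hpq
      rcases hchain.total hs ht with h | h
      · exact (hch ht).2 p (h hp) q hq hpq
      · exact (hch hs).2 p hp q (h hq) hpq
  refine ⟨𝒜, cc hκ hκ0 hD 𝒜 hmax.prop.2, hmax.prop.1, fun W hW ⟨x, hxW, hxV⟩ => ?_⟩
  obtain ⟨G, hG⟩ := exists_cyl (hW.inter hV) (⟨hxW, hxV⟩ : x ∈ W ∩ V)
  by_contra! hcon
  have hdis : ∀ p ∈ 𝒜, Disjoint (cyl G x) (cyl p.1 p.2) := by
    intro p hp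
    rw [Set.disjoint_left]
    intro y hy1 hy2
    have := hcon p hp
    have h2 : y ∈ W ∩ cyl p.1 p.2 := ⟨(hG hy1).1, hy2⟩
    rw [this] at h2
    exact h2
  have hnew : Good (insert (G, x) 𝒜) := by
    refine ⟨?_, ?_⟩
    · rintro p (rfl | hp)
      · exact fun y hy => (hG hy).2
      · exact hmax.prop.1 p hp
    · rintro p (rfl | hp) q (rfl | hq) hpq
      · exact absurd rfl hpq
      · exact hdis q hq
      · exact (hdis p hp).symm
      · exact hmax.prop.2 p hp q hq hpq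
  have hmem : (G, x) ∈ 𝒜 := hmax.le_of_ge hnew (subset_insert _ _) (mem_insert _ _)
  exact Set.disjoint_left.1 (hdis _ hmem) (self_mem_cyl G x) (self_mem_cyl G x)

end cc


section et
variable {X : Type} [TopologicalSpace X]

/-- `V` contains a cellular family of size at least `l`. -/
def Big (V : Set X) (l : Cardinal.{0}) : Prop :=
  ∃ 𝒢, IsCellular X 𝒢 ∧ (∀ G ∈ 𝒢, G ⊆ V) ∧ l ≤ Cardinal.mk 𝒢

lemma Big.mono {V : Set X} {l m : Cardinal.{0}} (h : Big V m) (hlm : l ≤ m) : Big V l := by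
  obtain ⟨𝒢, h1, h2, h3⟩ := h
  exact ⟨𝒢, h1, h2, hlm.trans h3⟩

lemma union_big {ι : Type} (V : ι → Set X) (hV : ∀ i j, i ≠ j → Disjoint (V i) (V j))
    (l : ι → Cardinal.{0}) (h : ∀ i, Big (V i) (l i)) :
    ∃ 𝒢, IsCellular X 𝒢 ∧ ∀ i, l i ≤ Cardinal.mk 𝒢 := by
  choose 𝒢 h1 h2 h3 using h
  refine ⟨⋃ i, 𝒢 i, ⟨?_, ?_⟩, fun i => (h3 i).trans (Cardinal.mk_le_mk_of_subset (subset_iUnion _ i))⟩
  · intro C hC
    obtain ⟨i, hi⟩ := mem_iUnion.1 hC
    exact (h1 i).1 C hi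
  · intro C hC D hD hCD
    obtain ⟨i, hi⟩ := mem_iUnion.1 hC
    obtain ⟨j, hj⟩ := mem_iUnion.1 hD
    rcases eq_or_ne i j with rfl | hij
    · exact (h1 i).2 C hi D hj hCD
    · exact (hV i j hij).mono (h2 i C hi) (h2 j D hj)

theorem erdos_tarski {κ : Cardinal.{0}} (hκ : κ.IsSingular)
    (h : ∀ l < κ, ∃ 𝒞, IsCellular X 𝒞 ∧ l ≤ Cardinal.mk 𝒞) :
    ∃ 𝒞, IsCellular X 𝒞 ∧ κ ≤ Cardinal.mk 𝒞 := by
  classical
  have hlim : Order.IsSuccLimit κ := hκ.isSuccLimit
  have hκ0 : Cardinal.aleph0 < κ := lt_of_lt_of_le (by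
    rw [← Cardinal.aleph_zero]; exact Cardinal.aleph_lt_aleph.2 Ordinal.omega0_pos) hκ.aleph_omega0_le
  have hfin : ∀ 𝒢 : Set (Set X), (∀ l < κ, l ≤ Cardinal.mk 𝒢) → κ ≤ Cardinal.mk 𝒢 := by
    intro 𝒢 h𝒢
    by_contra! hcon
    have := h𝒢 _ (hlim.succ_lt hcon)
    exact absurd this (not_le.2 (Order.lt_succ _))
  -- the two types of open sets
  let TA : Set X → Prop := fun W => ∀ V ⊆ W, IsOpen V → V.Nonempty → ∀ l < κ, Big V l
  let TB : Set X → Prop := fun W => ∃ l < κ, ¬ Big W l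
  let Good : Set (Set X) → Prop := fun 𝒲 => IsCellular X 𝒲 ∧ ∀ W ∈ 𝒲, TA W ∨ TB W
  obtain ⟨𝒲, -, hmax⟩ : ∃ 𝒲, (∅ : Set (Set X)) ⊆ 𝒲 ∧ Maximal Good 𝒲 := by
    refine zorn_subset_nonempty {𝒲 | Good 𝒲} ?_ ∅ ⟨⟨by simp, by simp⟩, by simp⟩
    intro ch hch hchain hne
    refine ⟨⋃₀ ch, ⟨⟨?_, ?_⟩, ?_⟩, fun s hs => subset_sUnion_of_mem hs⟩
    · rintro C ⟨s, hs, hC⟩
      exact (hch hs).1.1 C hC
    · rintro C ⟨s, hs, hC⟩ D ⟨t, ht, hD⟩ hCD
      rcases hchain.total hs ht with h | h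
      · exact (hch ht).1.2 C (h hC) D hD hCD
      · exact (hch hs).1.2 C hC D (h hD) hCD
    · rintro C ⟨s, hs, hC⟩
      exact (hch hs).2 C hC
  have hcell := hmax.prop.1
  have htype := hmax.prop.2
  -- every nonempty open set meets a member of the family
  have hdense : ∀ V : Set X, IsOpen V → V.Nonempty → ∃ W ∈ 𝒲, (W ∩ V).Nonempty := by
    intro V hV hVne
    by_contra! hcon
    obtain ⟨V', hV'V, hV'o, hV'ne, hV't⟩ : ∃ V' ⊆ V, IsOpen V' ∧ V'.Nonempty ∧ (TA V' ∨ TB V') := by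
      by_cases hA : TA V
      · exact ⟨V, subset_rfl, hV, hVne, Or.inl hA⟩
      · simp only [TA, not_forall] at hA
        obtain ⟨V', h1, h2, h3, l, hl, h4⟩ := hA
        exact ⟨V', h1, h2, h3, Or.inr ⟨l, hl, h4⟩⟩
    have hdis : ∀ W ∈ 𝒲, Disjoint W V' := by
      intro W hW
      rw [Set.disjoint_iff_inter_eq_empty, ← subset_empty_iff, ← hcon W hW]
      exact inter_subset_inter_right _ hV'V
    have hnew : Good (insert V' 𝒲) := by
      refine ⟨⟨?_, ?_⟩, ?_⟩
      · rintro C (rfl | hC)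
        · exact ⟨hV'o, hV'ne⟩
        · exact hcell.1 C hC
      · rintro C (rfl | hC) D (rfl | hD) hCD
        · exact absurd rfl hCD
        · exact (hdis D hD).symm
        · exact hdis C hC
        · exact hcell.2 C hC D hD hCD
      · rintro C (rfl | hC)
        · exact hV't
        · exact htype C hC
    have hmem : V' ∈ 𝒲 := hmax.le_of_ge hnew (subset_insert _ _) (mem_insert _ _)
    have := hdis V' hmem
    rw [disjoint_self] at this
    exact hV'ne.ne_empty this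
  rcases le_or_gt κ (Cardinal.mk 𝒲) with hbig | hsmall
  · exact ⟨𝒲, hcell, hbig⟩
  by_cases hA : ∃ W ∈ 𝒲, TA W
  · -- case (i)
    obtain ⟨W, hW, hWA⟩ := hA
    obtain ⟨ι, f, hf, hι⟩ := Ordinal.exists_lsub_cof κ.ord
    have hικ : Cardinal.mk ι < κ := by rw [hι]; exact hκ.cof_ord_lt
    obtain ⟨𝒱, hV1, hV2, hV3⟩ := hWA W subset_rfl (hcell.1 W hW).1 (hcell.1 W hW).2 _ hικ
    obtain ⟨e⟩ : Nonempty (ι ↪ 𝒱) := hV3
    have hfi : ∀ i, (f i).card < κ := fun i => by
      rw [← Cardinal.lt_ord, ← hf]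
      exact Ordinal.lt_lsub f i
    obtain ⟨𝒢, h1, h2⟩ := union_big (fun i => ((e i : 𝒱) : Set X)) (fun i j hij => by
      refine hV1.2 _ (e i).2 _ (e j).2 (fun h => hij (e.injective (Subtype.ext h))))
      (fun i => (f i).card) (fun i => hWA _ (hV2 _ (e i).2) (hV1.1 _ (e i).2).1 (hV1.1 _ (e i).2).2
        _ (hfi i))
    refine ⟨𝒢, h1, hfin 𝒢 fun l hl => ?_⟩
    have hl' : l.ord < Ordinal.lsub f := by rw [hf]; exact Cardinal.ord_lt_ord.2 hl
    obtain ⟨i, hi⟩ := Ordinal.lt_lsub_iff.1 hl'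
    exact (Cardinal.ord_le.1 hi).trans (h2 i)
  · -- case (ii)
    have hB : ∀ W ∈ 𝒲, TB W := fun W hW => by
      rcases htype W hW with h | h
      · exact absurd ⟨W, hW, h⟩ hA
      · exact h
    have hub : ∀ l < κ, ∃ W ∈ 𝒲, Big W l := by
      intro l hl
      by_contra! hcon
      -- a regular cardinal between
      have hm : max (max l (Cardinal.mk 𝒲)) Cardinal.aleph0 < κ := max_lt (max_lt hl hsmall) hκ0
      set m := max (max l (Cardinal.mk 𝒲)) Cardinal.aleph0 with hmdef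
      have hm' : Order.succ m < κ := hlim.succ_lt hm
      have hreg : (Order.succ m).IsRegular := Cardinal.isRegular_succ (le_max_right _ _)
      obtain ⟨𝒞, hC1, hC2⟩ := h _ hm'
      have hch : ∀ C : 𝒞, ∃ W : 𝒲, ((W : Set X) ∩ C).Nonempty := by
        intro C
        obtain ⟨W, hW, hWC⟩ := hdense C (hC1.1 C C.2).1 (hC1.1 C C.2).2
        exact ⟨⟨W, hW⟩, hWC⟩
      choose g hg using hch
      have hcof : Cardinal.mk 𝒲 < (Order.succ m).ord.cof := by
        rw [hreg.cof_ord]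
        exact lt_of_le_of_lt ((le_max_right _ _).trans (le_max_left _ _)) (Order.lt_succ _)
      obtain ⟨W, hW⟩ := Cardinal.infinite_pigeonhole_card g _ hC2 hreg.aleph0_le hcof
      apply hcon W W.2
      have hinj : Function.Injective (fun C : (g ⁻¹' {W} : Set 𝒞) => (W : Set X) ∩ C.1.1) := by
        intro C D hCD
        by_contra hne
        have hne' : (C.1.1 : Set X) ≠ D.1.1 := fun h => hne (Subtype.ext (Subtype.ext h))
        have hd := hC1.2 _ C.1.2 _ D.1.2 hne'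
        have h1 := hg C.1
        have h2 : g C.1 = W := C.2
        rw [h2] at h1
        obtain ⟨x, hx⟩ := h1
        have hx' : x ∈ (W : Set X) ∩ D.1.1 := by
          have hCD' : (W : Set X) ∩ C.1.1 = (W : Set X) ∩ D.1.1 := hCD
          rw [← hCD']; exact hx
        exact Set.disjoint_left.1 hd hx.2 hx'.2
      refine ⟨range (fun C : (g ⁻¹' {W} : Set 𝒞) => (W : Set X) ∩ C.1.1), ⟨?_, ?_⟩, ?_, ?_⟩
      · rintro _ ⟨C, rfl⟩
        refine ⟨(hcell.1 W W.2).1.inter (hC1.1 _ C.1.2).1, ?_⟩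
        have h1 := hg C.1
        have h2 : g C.1 = W := C.2
        rw [h2] at h1
        exact h1
      · rintro _ ⟨C, rfl⟩ _ ⟨D, rfl⟩ hne
        have hne' : (C.1.1 : Set X) ≠ D.1.1 := fun h => hne (by simp only [h])
        exact (hC1.2 _ C.1.2 _ D.1.2 hne').mono inter_subset_right inter_subset_right
      · rintro _ ⟨C, rfl⟩
        exact inter_subset_left
      · rw [Cardinal.mk_range_eq _ hinj]
        exact (((le_max_left _ _).trans (le_max_left _ _)).trans (Order.le_succ m)).trans hW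
    -- saturation of the members
    let sat : Set X → Cardinal.{0} := fun W => sInf {l | ¬ Big W l}
    have hsat : ∀ W ∈ 𝒲, ¬ Big W (sat W) := by
      intro W hW
      obtain ⟨l, -, hl⟩ := hB W hW
      exact csInf_mem (s := {l | ¬ Big W l}) ⟨l, hl⟩
    have hsatlt : ∀ W ∈ 𝒲, sat W < κ := by
      intro W hW
      obtain ⟨l, hl1, hl⟩ := hB W hW
      exact lt_of_le_of_lt (csInf_le' (s := {l | ¬ Big W l}) hl) hl1
    have hsatb : ∀ W, ∀ l < sat W, Big W l := by
      intro W l hl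
      by_contra hcon
      exact absurd (csInf_le' (s := {l | ¬ Big W l}) hcon) (not_le.2 hl)
    have hlt : ∀ W ∈ 𝒲, ∀ l, Big W l → l < sat W := by
      intro W hW l hl
      by_contra! hcon
      exact hsat W hW (hl.mono hcon)
    let T : Set Cardinal.{0} := sat '' 𝒲
    have hTub : ∀ l < κ, ∃ τ ∈ T, l < τ := by
      intro l hl
      obtain ⟨W, hW, hWl⟩ := hub l hl
      exact ⟨sat W, ⟨W, hW, rfl⟩, hlt W hW l hWl⟩
    -- the next element
    let nx : 𝒲 → Cardinal.{0} := fun W => sInf {τ | τ ∈ T ∧ sat W < τ}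
    have hnx : ∀ W : 𝒲, nx W ∈ T ∧ sat W < nx W := by
      intro W
      obtain ⟨τ, h1, h2⟩ := hTub _ (hsatlt W W.2)
      exact csInf_mem (s := {τ | τ ∈ T ∧ sat W < τ}) ⟨τ, h1, h2⟩
    have hnxle : ∀ W : 𝒲, ∀ τ ∈ T, sat W < τ → nx W ≤ τ := by
      intro W τ h1 h2
      exact csInf_le' (s := {τ | τ ∈ T ∧ sat W < τ}) ⟨h1, h2⟩
    -- index set: one member for each value
    let ch : 𝒲 → 𝒲 := fun W => ⟨(hnx W).1.choose, (hnx W).1.choose_spec.1⟩
    have hch : ∀ W, sat (ch W) = nx W := fun W => (hnx W).1.choose_spec.2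
    have hchinj : ∀ W W' : 𝒲, ch W = ch W' → sat W = sat W' := by
      intro W W' h
      have h1 : nx W = nx W' := by rw [← hch, ← hch, h]
      rcases lt_trichotomy (sat W) (sat W') with h2 | h2 | h2
      · have := hnxle W _ ⟨W', W'.2, rfl⟩ h2
        exact absurd (lt_of_le_of_lt (this) (hnx W').2) (by rw [h1]; exact lt_irrefl _)
      · exact h2
      · have := hnxle W' _ ⟨W, W.2, rfl⟩ h2
        exact absurd (lt_of_le_of_lt (this) (hnx W).2) (by rw [h1]; exact lt_irrefl _)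
    -- use the image of `ch` as index set
    obtain ⟨𝒢, h1, h2⟩ := union_big (ι := range ch) (fun W => ((W.1 : 𝒲) : Set X)) (fun W W' hne =>
      hcell.2 _ W.1.2 _ W'.1.2 (fun h => hne (Subtype.ext (Subtype.ext h))))
      (fun W => sat (W.2.choose)) (fun W => by
        have hW := W.2.choose_spec
        apply hsatb
        have : sat W.1 = nx W.2.choose := by rw [← hch, hW]
        rw [this]
        exact (hnx _).2)
    refine ⟨𝒢, h1, hfin 𝒢 fun l hl => ?_⟩
    obtain ⟨_, ⟨W, hW, rfl⟩, hlW⟩ := hTub l hl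
    have h3 := h2 ⟨ch ⟨W, hW⟩, mem_range_self _⟩
    have h4 : sat ((mem_range_self (f := ch) ⟨W, hW⟩).choose) = sat W := by
      exact hchinj _ _ (mem_range_self (f := ch) ⟨W, hW⟩).choose_spec
    refine hlW.le.trans ?_
    rw [← h4]
    exact h3

end et

section play
variable {P : Type}

/-- the finite levels of the tree of plays in which TWO plays inside `F` -/
noncomputable def lev (F : List P → Finset P) : ℕ → Set (List P)
  | 0 => {[]}
  | n + 1 => {l | ∃ h ∈ lev F n, ∃ U ∈ F h, l = h ++ [U]}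

lemma lev_finite (F : List P → Finset P) (n : ℕ) : (lev F n).Finite := by
  induction n with
  | zero => exact finite_singleton _
  | succ n ih =>
    have : lev F (n + 1) = ⋃ h ∈ lev F n, (fun U => h ++ [U]) '' (F h : Set P) := by
      ext l
      simp only [lev, mem_ofPred_eq, mem_iUnion, mem_image, Finset.mem_coe]
      constructor
      · rintro ⟨h, hh, U, hU, rfl⟩
        exact ⟨h, hh, U, hU, rfl⟩
      · rintro ⟨h, hh, U, hU, rfl⟩
        exact ⟨h, hh, U, hU, rfl⟩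
    rw [this]
    exact ih.biUnion fun h _ => (F h).finite_toSet.image _

lemma exists_play (F : List P → Finset P) (hF : ∀ h, (F h).Nonempty) {T : Type}
    (hT : Cardinal.mk T < nonSMZ) (hit : T → P → Prop) (hhit : ∀ h t, ∃ O ∈ F h, hit t O) :
    ∃ U : ℕ → P, (∀ n, (List.range n).map U ∈ lev F n) ∧ (∀ n, U n ∈ F ((List.range n).map U)) ∧
      ∀ t, ∃ n, hit t (U n) := by
  classical
  let B : ℕ → Type := fun n => (h : {h // h ∈ lev F n}) → {U // U ∈ F h.1}
  have hBne : ∀ n, Nonempty (B n) := fun n => ⟨fun h => ⟨(hF h.1).choose, (hF h.1).choose_spec⟩⟩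
  have hBfin : ∀ n, Finite (B n) := fun n => by
    show Finite ((h : {h // h ∈ lev F n}) → {U // U ∈ F h.1})
    have : Finite {h // h ∈ lev F n} := (lev_finite F n).to_subtype
    infer_instance
  let φ : T → ∀ n, B n := fun a n h => ⟨(hhit h.1 a).choose, (hhit h.1 a).choose_spec.1⟩
  have hφ : ∀ a n (h : {h // h ∈ lev F n}), hit a (φ a n h).1 :=
    fun a n h => (hhit h.1 a).choose_spec.2
  obtain ⟨g, hg⟩ := guess hT B φ
  let G : ℕ → List P → P := fun n h =>
    @dite P (h ∈ lev F n) (Classical.propDecidable _)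
      (fun hh => (g n ⟨h, hh⟩).1) (fun _ => (hF h).choose)
  let hist : ℕ → List P := fun n =>
    Nat.rec (motive := fun _ => List P) [] (fun k h => h ++ [G k h]) n
  have hist0 : hist 0 = [] := rfl
  have hists : ∀ n, hist (n + 1) = hist n ++ [G n (hist n)] := fun n => rfl
  have hGF : ∀ n, hist n ∈ lev F n → G n (hist n) ∈ F (hist n) := by
    intro n hn
    simp only [G, dif_pos hn]
    exact (g n ⟨hist n, hn⟩).2
  have hmem : ∀ n, hist n ∈ lev F n := by
    intro n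
    induction n with
    | zero => exact mem_singleton _
    | succ n ih => exact ⟨hist n, ih, G n (hist n), hGF n ih, hists n⟩
  have hmap : ∀ n, (List.range n).map (fun k => G k (hist k)) = hist n := by
    intro n
    induction n with
    | zero => rfl
    | succ n ih => rw [List.range_succ, List.map_append, ih, hists]; rfl
  refine ⟨fun k => G k (hist k), fun n => by rw [hmap]; exact hmem n, fun n => by
    rw [hmap]; exact hGF n (hmem n), fun t => ?_⟩
  obtain ⟨n, hn⟩ := hg t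
  refine ⟨n, ?_⟩
  have h1 : G n (hist n) = (g n ⟨hist n, hmem n⟩).1 := by simp only [G, dif_pos (hmem n)]
  show hit t (G n (hist n))
  rw [h1, hn]
  exact hφ t n _

end play

lemma finite_subfamily_abs {Z : Type} [TopologicalSpace Z] {𝒰 : Set (Set (Abs Z))}
    (h : 𝒰 ∈ FamK (Abs Z)) :
    ∃ F : Finset (Set (Abs Z)), (F : Set (Set (Abs Z))) ⊆ 𝒰 ∧
      ∀ W : TopologicalSpace.Opens Z, (W : Set Z).Nonempty → ∃ O ∈ F, ((tr O : Set Z) ∩ W).Nonempty := by
  classical
  obtain ⟨⟨ho, -⟩, hcl⟩ := h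
  have hcov : (univ : Set (Abs Z)) ⊆ ⋃ U : 𝒰, bas (tr (U : Set (Abs Z))) := by
    rw [← hcl]
    intro p hp
    obtain ⟨U, hU, hpU⟩ := mem_iUnion₂.1 hp
    exact mem_iUnion.2 ⟨⟨U, hU⟩, closure_subset_bas_tr (ho U hU) hpU⟩
  obtain ⟨t, ht⟩ := isCompact_univ.elim_finite_subcover _
    (fun U => (isClopen_bas _).2) hcov
  refine ⟨t.image Subtype.val, ?_, fun W hW => ?_⟩
  · intro U hU
    rw [Finset.mem_coe, Finset.mem_image] at hU
    obtain ⟨V, -, rfl⟩ := hU
    exact V.2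
  · obtain ⟨p, hp⟩ := bas_nonempty hW
    obtain ⟨U, hU, hpU⟩ := mem_iUnion₂.1 (ht (mem_univ p))
    refine ⟨U, Finset.mem_image_of_mem _ hU, ?_⟩
    by_contra hcon
    rw [not_nonempty_iff_eq_empty] at hcon
    have h1 : tr (U : Set (Abs Z)) ⊓ W = ⊥ := by
      apply TopologicalSpace.Opens.ext
      exact hcon
    have h2 : p ∈ bas (tr (U : Set (Abs Z)) ⊓ W) := by
      rw [bas_inf]; exact ⟨hpU, hp⟩
    rw [h1, bas_bot] at h2
    exact h2

section prod
variable {K : Type} {D : K → Type} [∀ i, TopologicalSpace (D i)] [∀ i, DiscreteTopology (D i)]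
  [∀ i, Nonempty (D i)]

theorem not_oneWins_abs (hreg : nonSMZ.IsRegular) (hD : ∀ i, Cardinal.mk (D i) < nonSMZ) :
    ¬ OneWins (Abs (∀ i, D i)) := by
  classical
  rintro ⟨σ, hσ, hplay⟩
  choose F hF1 hF2 using fun h => finite_subfamily_abs (hσ h)
  have hne : ((⊤ : TopologicalSpace.Opens (∀ i, D i)) : Set (∀ i, D i)).Nonempty :=
    ⟨fun i => Classical.arbitrary _, trivial⟩
  have hFne : ∀ h, (F h).Nonempty := fun h => by
    obtain ⟨U, hU, -⟩ := hF2 h ⊤ hne
    exact ⟨U, hU⟩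
  -- the countable family of sets occurring in the tree
  let 𝒪 : Set (Set (Abs (∀ i, D i))) := ⋃ n : ℕ, ⋃ h ∈ lev F n, (F h : Set (Set (Abs (∀ i, D i))))
  have h𝒪 : 𝒪.Countable := countable_iUnion fun n =>
    (lev_finite F n).countable.biUnion fun h _ => (F h).countable_toSet
  choose 𝒜 hA1 hA2 hA3 using fun O : Set (Abs (∀ i, D i)) =>
    exists_small hreg aleph0_lt_nonSMZ hD (tr O : Set (∀ i, D i)) (tr O).2
  let S : Set K := ⋃ O : 𝒪, ⋃ p : 𝒜 O, (p.1.1 : Set K)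
  have hS : Cardinal.mk S < nonSMZ := by
    have : Countable 𝒪 := h𝒪.to_subtype
    refine (Cardinal.card_iUnion_lt_iff_forall_of_isRegular hreg
      (lt_of_le_of_lt (Cardinal.mk_le_aleph0) aleph0_lt_nonSMZ)).2 fun O => ?_
    refine (Cardinal.card_iUnion_lt_iff_forall_of_isRegular hreg (hA1 O)).2 fun p => ?_
    exact lt_of_le_of_lt (Cardinal.mk_le_aleph0) aleph0_lt_nonSMZ
  let Q : Type := Σ i : S, D i.1
  have hQ : Cardinal.mk Q < nonSMZ := by
    show Cardinal.mk (Σ i : S, D i.1) < nonSMZ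
    rw [Cardinal.mk_sigma]
    exact Cardinal.sum_lt_of_isRegular hreg hS fun i => hD i.1
  let Wt : Finset Q → Set (∀ i, D i) := fun t => {z | ∀ q ∈ t, z q.1.1 = q.2}
  have hWt : ∀ t, IsOpen (Wt t) := by
    intro t
    have : Wt t = ⋂ q ∈ t, (fun x : ∀ i, D i => x q.1.1) ⁻¹' {q.2} := by
      ext x; simp [Wt]
    rw [this]
    exact isOpen_biInter_finset fun i _ => (isOpen_discrete _).preimage (continuous_apply _)
  let T : Type := {t : Finset Q // (Wt t).Nonempty}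
  have hT : Cardinal.mk T < nonSMZ := by
    refine lt_of_le_of_lt (Cardinal.mk_subtype_le _) ?_
    rcases finite_or_infinite Q with h | h
    · exact lt_of_le_of_lt (Cardinal.mk_le_aleph0) aleph0_lt_nonSMZ
    · rw [Cardinal.mk_finset_of_infinite]; exact hQ
  obtain ⟨U, hU1, hU2, hU3⟩ := exists_play F hFne hT
    (fun t O => ((tr O : Set (∀ i, D i)) ∩ Wt t.1).Nonempty)
    (fun h t => hF2 h ⟨Wt t.1, hWt t.1⟩ t.2)
  have hU𝒪 : ∀ n, U n ∈ 𝒪 := fun n => mem_iUnion.2 ⟨n, mem_iUnion₂.2 ⟨_, hU1 n, hU2 n⟩⟩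
  apply hplay U (fun n => hF1 _ (hU2 n))
  refine ⟨?_, ?_⟩
  · rintro _ ⟨n, rfl⟩
    exact (hσ _).1.1 _ (hF1 _ (hU2 n))
  · rw [dense_iff_inter_open]
    rintro O hO ⟨p, hp⟩
    obtain ⟨G, hpG, hG⟩ := exists_bas hO hp
    have hGne : (G : Set (∀ i, D i)).Nonempty := by
      by_contra hcon
      rw [not_nonempty_iff_eq_empty] at hcon
      have h1 : G = ⊥ := by
        apply TopologicalSpace.Opens.ext
        exact hcon
      rw [h1, bas_bot] at hpG
      exact hpG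
    obtain ⟨z, hz⟩ := hGne
    obtain ⟨G0, hG0⟩ := exists_cyl G.2 hz
    let t : Finset Q := (G0.subtype (· ∈ S)).image fun i => (⟨⟨i.1, i.2⟩, z i.1⟩ : Σ i : S, D i.1)
    have ht : ∀ x, x ∈ Wt t ↔ ∀ i ∈ G0, i ∈ S → x i = z i := by
      intro x
      constructor
      · intro hx i hi hiS
        exact hx ⟨⟨i, hiS⟩, z i⟩ (Finset.mem_image.2 ⟨⟨i, hiS⟩, by simpa using hi, rfl⟩)
      · intro hx q hq
        obtain ⟨i, hi, rfl⟩ := Finset.mem_image.1 hq
        exact hx i.1 (by simpa using hi) i.2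
    have hzt : z ∈ Wt t := (ht z).2 fun _ _ _ => rfl
    obtain ⟨n, hn⟩ := hU3 ⟨t, ⟨z, hzt⟩⟩
    rw [inter_comm] at hn
    obtain ⟨q, hq, x, hxt, hxq⟩ := hA3 (U n) (Wt t) (hWt t) hn
    let y : ∀ i, D i := fun i => if i ∈ G0 then z i else x i
    have hyG : y ∈ (G : Set (∀ i, D i)) := hG0 fun i hi => by simp only [y, if_pos hi]
    have hyU : y ∈ (tr (U n) : Set (∀ i, D i)) := by
      apply hA2 (U n) q hq
      intro i hi
      have hiS : i ∈ S := mem_iUnion.2 ⟨⟨U n, hU𝒪 n⟩, mem_iUnion.2 ⟨⟨q, hq⟩, hi⟩⟩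
      by_cases h : i ∈ G0
      · simp only [y, if_pos h]
        rw [← (ht x).1 hxt i h hiS]
        exact hxq i hi
      · simp only [y, if_neg h]
        exact hxq i hi
    obtain ⟨r, hr1, hr2⟩ := meets_of_tr (O := U n) (W := G) ⟨y, hyU, hyG⟩
    exact ⟨r, hG hr2, U n, ⟨n, rfl⟩, hr1⟩

lemma card_le_cellularity_abs (i : K) : Cardinal.mk (D i) ≤ cellularity (Abs (∀ i, D i)) := by
  classical
  let V : D i → TopologicalSpace.Opens (∀ i, D i) := fun d =>
    ⟨(fun x : ∀ i, D i => x i) ⁻¹' {d}, (isOpen_discrete _).preimage (continuous_apply i)⟩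
  have hVne : ∀ d, (bas (V d)).Nonempty := fun d => by
    apply bas_nonempty
    refine ⟨Function.update (fun j => Classical.arbitrary (D j)) i d, ?_⟩
    show Function.update (fun j => Classical.arbitrary (D j)) i d i = d
    simp
  have hdis : ∀ d e, d ≠ e → Disjoint (bas (V d)) (bas (V e)) := by
    intro d e hde
    rw [Set.disjoint_iff_inter_eq_empty, ← bas_inf]
    have : V d ⊓ V e = ⊥ := by
      apply TopologicalSpace.Opens.ext
      apply Set.eq_empty_of_forall_notMem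
      rintro x ⟨h1, h2⟩
      have h1' : x i = d := h1
      have h2' : x i = e := h2
      exact hde (h1'.symm.trans h2')
    rw [this, bas_bot]
  have hinj : Function.Injective fun d => bas (V d) := by
    intro d e h
    by_contra hde
    have h1 := hdis d e hde
    have h2 : bas (V d) = bas (V e) := h
    rw [h2, disjoint_self] at h1
    exact (hVne e).ne_empty h1
  have hcell : IsCellular (Abs (∀ i, D i)) (range fun d => bas (V d)) := by
    refine ⟨?_, ?_⟩
    · rintro _ ⟨d, rfl⟩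
      exact ⟨(isClopen_bas _).2, hVne d⟩
    · rintro _ ⟨d, rfl⟩ _ ⟨e, rfl⟩ hne
      exact hdis d e (fun h => hne (by simp only [h]))
  rw [← Cardinal.mk_range_eq _ hinj]
  refine le_csSup ⟨Cardinal.mk (Set (Abs (∀ i, D i))), ?_⟩ ⟨_, hcell, rfl⟩
  rintro _ ⟨𝒞, -, rfl⟩
  exact Cardinal.mk_set_le 𝒞

end prod


/-- the factors of the product: discrete spaces of the sizes below `κ` -/
def Fac (κ : Cardinal.{0}) (i : κ.ord.ToType) : Type := Option (Iio i)

instance (κ : Cardinal.{0}) (i : κ.ord.ToType) : TopologicalSpace (Fac κ i) := ⊥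
instance (κ : Cardinal.{0}) (i : κ.ord.ToType) : DiscreteTopology (Fac κ i) := ⟨rfl⟩
instance (κ : Cardinal.{0}) (i : κ.ord.ToType) : Nonempty (Fac κ i) := ⟨none⟩

theorem gameJ_eq_succ (hreg : nonSMZ.IsRegular) (hlim : Order.IsSuccLimit nonSMZ) :
    gameJ = Order.succ nonSMZ := by
  refine le_antisymm gameJ_le_succ ?_
  have hmem : gameJ ∈ {κ : Cardinal.{0} | ∀ (X : Type) [TopologicalSpace X] [T35Space X],
      κ ≤ cellularity X → OneWins X} := by
    refine csInf_mem ⟨Order.succ nonSMZ, fun X _ _ hX => ?_⟩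
    obtain ⟨𝒞, h1, h2⟩ := exists_cellular_of_lt (lt_of_lt_of_le (Order.lt_succ _) hX)
    exact oneWins_of_cellular h1 h2.le
  rw [Order.succ_le_iff]
  by_contra! hcon
  have hD : ∀ i : nonSMZ.ord.ToType, Cardinal.mk (Fac nonSMZ i) < nonSMZ := by
    intro i
    show Cardinal.mk (Option (Iio i)) < nonSMZ
    rw [Cardinal.mk_option]
    exact Cardinal.add_lt_of_lt hreg.aleph0_le (Cardinal.mk_Iio_ord_toType i)
      (lt_of_lt_of_le Cardinal.one_lt_aleph0 hreg.aleph0_le)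
  refine not_oneWins_abs hreg hD (hmem _ (hcon.trans ?_))
  refine le_of_forall_lt fun l hl => ?_
  have hl' : Order.succ l < nonSMZ := hlim.succ_lt hl
  have hty : (Order.succ l).ord < Ordinal.type (α := nonSMZ.ord.ToType) (· < ·) := by
    rw [Ordinal.type_toType]; exact Cardinal.ord_lt_ord.2 hl'
  let i : nonSMZ.ord.ToType := Ordinal.enum (α := nonSMZ.ord.ToType) (· < ·) ⟨_, hty⟩
  have hi : Cardinal.mk (Iio i) = Order.succ l := by
    have h1 : Ordinal.typein (α := nonSMZ.ord.ToType) (· < ·) i = (Order.succ l).ord :=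
      Ordinal.typein_enum _ hty
    have h2 := congrArg Ordinal.card h1
    rw [Cardinal.card_ord] at h2
    rw [← h2]
    rfl
  have h3 := card_le_cellularity_abs (D := Fac nonSMZ) i
  refine lt_of_lt_of_le (Order.lt_succ l) (le_trans ?_ h3)
  show _ ≤ Cardinal.mk (Option (Iio i))
  rw [Cardinal.mk_option, hi]
  exact self_le_add_right _ _

theorem gameJ_eq (h : ¬ (nonSMZ.IsRegular ∧ Order.IsSuccLimit nonSMZ)) : gameJ = nonSMZ := by
  refine le_antisymm (csInf_le' (fun X _ _ hX => ?_)) nonSMZ_le_gameJ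
  have hall : ∀ l < nonSMZ, ∃ 𝒞, IsCellular X 𝒞 ∧ l ≤ Cardinal.mk 𝒞 := by
    intro l hl
    obtain ⟨𝒞, h1, h2⟩ := exists_cellular_of_lt (lt_of_lt_of_le hl hX)
    exact ⟨𝒞, h1, h2.le⟩
  by_cases hreg : nonSMZ.IsRegular
  · have hnl : ¬ Order.IsSuccLimit nonSMZ := fun hlim => h ⟨hreg, hlim⟩
    have hnp : ¬ Order.IsSuccPrelimit nonSMZ := fun hp => hnl ⟨by
      rw [isMin_iff_eq_bot]
      exact hreg.pos.ne', hp⟩
    rw [Order.not_isSuccPrelimit_iff_exists_covBy] at hnp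
    obtain ⟨c, hc⟩ := hnp
    obtain ⟨𝒞, h1, h2⟩ := exists_cellular_of_lt (lt_of_lt_of_le hc.lt hX)
    exact oneWins_of_cellular h1 (by rw [← hc.succ_eq]; exact Order.succ_le_of_lt h2)
  · have hsing := Cardinal.IsSingular.of_not_isRegular aleph0_lt_nonSMZ.le hreg
    obtain ⟨𝒞, h1, h2⟩ := erdos_tarski hsing hall
    exact oneWins_of_cellular h1 h2

/-- The game cardinal is `nonSMZ`, unless `nonSMZ` is weakly inaccessible (a regular limit cardinal),
in which case it is the successor of `nonSMZ`. In all cases `nonSMZ` is the least `κ` such that ONE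
has a winning strategy on every Tychonoff space with a cellular family of cardinality at least
`κ`. -/
theorem result :
    (¬ (nonSMZ.IsRegular ∧ Order.IsSuccLimit nonSMZ) → gameJ = nonSMZ) ∧
    (nonSMZ.IsRegular ∧ Order.IsSuccLimit nonSMZ → gameJ = Order.succ nonSMZ) ∧
    IsLeast {κ : Cardinal.{0} | ∀ (X : Type) [TopologicalSpace X] [T35Space X] (𝒞 : Set (Set X)),
      IsCellular X 𝒞 → κ ≤ Cardinal.mk 𝒞 → OneWins X} nonSMZ := by
  refine ⟨gameJ_eq, fun h => gameJ_eq_succ h.1 h.2, fun X _ _ 𝒞 h𝒞 hc =>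
    oneWins_of_cellular h𝒞 hc, fun κ hκ => ?_⟩
  by_contra! hlt
  have h1 : max κ Cardinal.aleph0 < nonSMZ := max_lt hlt aleph0_lt_nonSMZ
  obtain ⟨α, hα⟩ : ∃ α : Type, Cardinal.mk α = max κ Cardinal.aleph0 := Quotient.exists_rep _
  have : Nonempty α := by
    rw [← Cardinal.mk_ne_zero_iff, hα]
    exact (lt_of_lt_of_le Cardinal.aleph0_pos (le_max_right _ _)).ne'
  refine not_oneWins_ultrafilter (α := α) (by rw [hα]; exact h1)
    (hκ (Ultrafilter α) _ (isCellular_ultrafilter (α := α)) ?_)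
  rw [Cardinal.mk_range_eq _ singleton_pure_injective, hα]
  exact le_max_left _ _

end Pool.Agent.Results.MP_26a47b_lc.GameCardinalExact
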